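import Pool.Agent.P8H79.RC.Stm
set_option autoImplicit false

/-!
The number of cliques as a number of finite sets (project RC).
-/

namespace Pool.Agent.P8H1.RC

open Pool.Agent.P8H79.RC

open Classical in
theorem cl_eq {V : Type} (G : SimpleGraph V) (T : Finset V) (k : ℕ) : cl G T k =
    ((T.powersetCard k).filter (fun S : Finset V => G.IsClique (S : Set V))).card := by
  unfold cl
  first
  | rfl
  | (rw [← Finset.card_image_of_injective (s := (T.powersetCard k).filter
        (fun S : Finset V => G.IsClique (S : Set V))) (f := fun S : Finset V => (S : Set V))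
        Finset.coe_injective]
     congr 1
     ext S
     simp only [Finset.mem_filter, Finset.mem_image, Finset.bind_def, Finset.mem_sup,
       Finset.pure_def, Finset.mem_singleton]
     constructor
     · rintro ⟨⟨a, ha, rfl⟩, h⟩
       exact ⟨a, ⟨ha, h⟩, rfl⟩
     · rintro ⟨a, ⟨ha, h⟩, rfl⟩
       exact ⟨⟨a, ha, rfl⟩, h⟩)

end Pool.Agent.P8H1.RC
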