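import Pool.Agent.P8H79.RC.Stm
set_option autoImplicit false

/-!
Package WIN of the project RC: positions on a cycle pairwise at small distance.
-/

namespace Pool.Agent.P8H1.RC

open Pool.Agent.P8H79.RC

/-- The offset of `i` from `a` in the interval `[-k, k]`. -/
def off (l k a i : ℕ) : ℤ :=
  if (i : ℤ) - a ≤ k ∧ (a : ℤ) - i ≤ k then (i : ℤ) - a
  else if a < i then (i : ℤ) - a - l else (i : ℤ) - a + l

theorem off_diff {l k a i j : ℕ} (hl : 3 * k < l) (ha : a < l) (hi : i < l) (hj : j < l)
    (hai : cd l a i ≤ k) (haj : cd l a j ≤ k) (hij : cd l i j ≤ k) :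
    off l k a i - off l k a j ≤ k := by
  unfold cd at hai haj hij
  unfold off
  split_ifs <;> omega

theorem off_inj {l k a i j : ℕ} (hi : i < l) (hj : j < l)
    (h : off l k a i = off l k a j) : i = j := by
  unfold off at h
  split_ifs at h <;> omega

theorem win : S_WIN := by
  intro l k hl S hS
  rcases S.eq_empty_or_nonempty with rfl | ⟨a, ha⟩
  · simp
  · obtain ⟨m, hm, hmin⟩ := Finset.exists_min_image S (fun i => off l k a.val i.val) ⟨a, ha⟩
    have h1 : ∀ i ∈ S, off l k a.val i.val ∈ Finset.Icc (off l k a.val m.val)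
        (off l k a.val m.val + k) := by
      intro i hi
      rw [Finset.mem_Icc]
      refine ⟨hmin i hi, ?_⟩
      have := off_diff hl a.2 i.2 m.2 (hS a ha i hi) (hS a ha m hm) (hS i hi m hm)
      omega
    have h2 := Finset.card_le_card_of_injOn (s := S)
      (t := Finset.Icc (off l k a.val m.val) (off l k a.val m.val + k))
      (fun i => off l k a.val i.val) h1 (by
        intro i hi j hj h
        exact Fin.ext (off_inj i.2 j.2 h))
    rw [Int.card_Icc] at h2
    omega

end Pool.Agent.P8H1.RC
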