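import Pool.Agent.P8H1.RC.Emb
import Pool.Agent.P8H1.RC.Win
import Pool.Agent.P8H1.RC.Cleq
set_option autoImplicit false

/-!
Package CNTW of the project RC: a vertex with a long hole in its neighbourhood forces few edges.
-/

namespace Pool.Agent.P8H1.RC

open Pool.Agent.P8H79.RC

/-- The next position. -/
def nx {r : ℕ} (i : Fin r) : Fin r := ⟨(i.val + 1) % r, Nat.mod_lt _ (by have := i.2; omega)⟩

theorem cyc_nx {r : ℕ} (hr : 2 ≤ r) {i j : Fin r} (h : (SimpleGraph.cycleGraph r).Adj i j) :
    j = nx i ∨ i = nx j := by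
  rw [cyc_adj hr] at h
  have hi := i.2
  have hj := j.2
  rcases h with h | h | h | h
  · left
    refine Fin.ext ?_
    show j.val = (i.val + 1) % r
    rw [Nat.mod_eq_of_lt (by omega), h]
  · right
    refine Fin.ext ?_
    show i.val = (j.val + 1) % r
    rw [Nat.mod_eq_of_lt (by omega), h]
  · right
    refine Fin.ext ?_
    show i.val = (j.val + 1) % r
    rw [h.2, Nat.mod_self, h.1]
  · left
    refine Fin.ext ?_
    show j.val = (i.val + 1) % r
    rw [h.2, Nat.mod_self, h.1]

section

variable {V : Type} [DecidableEq V] {G : SimpleGraph V}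

/-- The edges of an embedded cycle. -/
def cedges {r : ℕ} (c : SimpleGraph.cycleGraph r ↪g G) : Finset (Finset V) :=
  Finset.univ.image (fun i : Fin r => {c i, c (nx i)})

theorem card_cedges {r : ℕ} (c : SimpleGraph.cycleGraph r ↪g G) : (cedges c).card ≤ r := by
  refine Finset.card_image_le.trans ?_
  simp

theorem mem_cedges {r : ℕ} (hr : 2 ≤ r) (c : SimpleGraph.cycleGraph r ↪g G) {i j : Fin r}
    (h : G.Adj (c i) (c j)) : ({c i, c j} : Finset V) ∈ cedges c := by
  rw [c.map_adj_iff] at h
  unfold cedges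
  rw [Finset.mem_image]
  rcases cyc_nx hr h with h1 | h1
  · exact ⟨i, Finset.mem_univ _, by rw [← h1]⟩
  · exact ⟨j, Finset.mem_univ _, by rw [← h1, Finset.pair_comm]⟩

/-- The positions of a set on an isometric cycle, whose elements are close to each other. -/
theorem pos_card {l : ℕ} {e : SimpleGraph.cycleGraph l ↪g G} (he : Isom G l e) {k : ℕ}
    (hl : 3 * k < l) (P : Finset (Fin l))
    (h : ∀ i ∈ P, ∀ j ∈ P, ∃ p : G.Walk (e i) (e j), p.length ≤ k) : P.card ≤ k + 1 := by
  refine win l k hl P fun i hi j hj => ?_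
  obtain ⟨p, hp⟩ := h i hi j hj
  exact (he i j p).trans hp

theorem set_card {l : ℕ} {e : SimpleGraph.cycleGraph l ↪g G} (he : Isom G l e) {k : ℕ}
    (hl : 3 * k < l) (X : Finset V) (hX : ∀ x ∈ X, ∃ i, e i = x)
    (h : ∀ x ∈ X, ∀ y ∈ X, ∃ p : G.Walk x y, p.length ≤ k) : X.card ≤ k + 1 := by
  classical
  have h1 := pos_card he hl (Finset.univ.filter fun i => e i ∈ X) (by
    intro i hi j hj
    rw [Finset.mem_filter] at hi hj
    exact h _ hi.2 _ hj.2)
  refine le_trans ?_ h1
  refine le_trans (Finset.card_le_card ?_)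
    (Finset.card_image_le (f := e) (s := Finset.univ.filter fun i => e i ∈ X))
  intro x hx
  obtain ⟨i, rfl⟩ := hX x hx
  exact Finset.mem_image.2 ⟨i, Finset.mem_filter.2 ⟨Finset.mem_univ _, hx⟩, rfl⟩

end

theorem cntw : S_CNTW := by
  classical
  intro V _ G hN h4 hsh l r hl4 hr4 e he c v hv
  set N := Fintype.card V with hNdef
  have hl : N ≤ 2 * l := by
    by_contra h
    exact (hsh l hl4 (by omega)).false e
  have hr : N ≤ 2 * r := by
    by_contra h
    exact (hsh r hr4 (by omega)).false c
  set A : Finset V := insert v (Finset.univ.image c) with hA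
  set Q : Finset V := Finset.univ.image e with hQ
  have hcv : ∀ i, c i ≠ v := fun i h => (hv i).ne h.symm
  have memA : ∀ {x : V}, x ∈ A ↔ x = v ∨ ∃ i, c i = x := by
    intro x
    rw [hA, Finset.mem_insert, Finset.mem_image]
    simp
  have memQ : ∀ {x : V}, x ∈ Q ↔ ∃ i, e i = x := by
    intro x
    rw [hQ, Finset.mem_image]
    simp
  have cardA : A.card = r + 1 := by
    rw [hA, Finset.card_insert_of_notMem, Finset.card_image_of_injective _ c.injective,
      Finset.card_univ, Fintype.card_fin]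
    rw [Finset.mem_image]
    rintro ⟨i, -, h⟩
    exact hcv i h
  have cardQ : Q.card = l := by
    rw [hQ, Finset.card_image_of_injective _ e.injective, Finset.card_univ, Fintype.card_fin]
  -- walks inside `A`
  have walkA : ∀ x ∈ A, ∀ y ∈ A, ∃ p : G.Walk x y, p.length ≤ 2 := by
    intro x hx y hy
    have toV : ∀ x ∈ A, ∃ p : G.Walk x v, p.length ≤ 1 := by
      intro x hx
      rcases memA.1 hx with rfl | ⟨i, rfl⟩
      · exact ⟨SimpleGraph.Walk.nil, by simp⟩
      · exact ⟨(hv i).symm.toWalk, by simp⟩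
    obtain ⟨p, hp⟩ := toV x hx
    obtain ⟨q, hq⟩ := toV y hy
    refine ⟨p.append q.reverse, ?_⟩
    rw [SimpleGraph.Walk.length_append, SimpleGraph.Walk.length_reverse]
    omega
  have cardAQ : (A ∩ Q).card ≤ 3 := by
    refine set_card he (k := 2) (by omega) _ (fun x hx => memQ.1 (Finset.mem_inter.1 hx).2) ?_
    intro x hx y hy
    exact walkA x (Finset.mem_inter.1 hx).1 y (Finset.mem_inter.1 hy).1
  have hunion : (A ∪ Q).card + (A ∩ Q).card = r + 1 + l := by
    rw [Finset.card_union_add_card_inter, cardA, cardQ]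
  have hAQN : (A ∪ Q).card ≤ N := Finset.card_le_univ _
  set O : Finset V := (A ∪ Q)ᶜ with hO
  have cardO : O.card ≤ 2 := by
    have h1 : O.card + (A ∪ Q).card = N := by
      rw [hO, Finset.card_compl]
      omega
    omega
  have hrN : r + 4 < N := by omega
  -- neighbours in `A`
  have nbA : ∀ u, u ∉ A → (A.filter fun a => G.Adj u a).card ≤ 2 := by
    intro u hu
    have huv : u ≠ v := fun h => hu (memA.2 (Or.inl h))
    have huc : ∀ i, c i ≠ u := fun i h => hu (memA.2 (Or.inr ⟨i, h⟩))
    by_cases hadj : G.Adj u v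
    · by_cases hex : ∃ i, G.Adj u (c i)
      · obtain ⟨i, hi⟩ := hex
        refine le_trans (Finset.card_le_card (t := {v, c i}) ?_) Finset.card_le_two
        intro x hx
        rw [Finset.mem_filter, memA] at hx
        rcases hx with ⟨rfl | ⟨j, rfl⟩, hx⟩
        · simp
        · rw [nb2 V G N r h4 hsh hr4 hrN c v u hv hadj.symm huc j i hx hi]
          simp
      · push Not at hex
        refine le_trans (Finset.card_le_card (t := {v}) ?_) (by simp)
        intro x hx
        rw [Finset.mem_filter, memA] at hx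
        rcases hx with ⟨rfl | ⟨j, rfl⟩, hx⟩
        · simp
        · exact absurd hx (hex j)
    · have h1 := nb1 V G h4 (hsh 4 le_rfl (by omega)) u v huv hadj
      refine le_trans ?_ h1
      unfold cc
      rw [← Set.ncard_coe_finset]
      refine Set.ncard_le_ncard ?_ (Set.toFinite _)
      intro x hx
      rw [Finset.mem_coe, Finset.mem_filter, memA] at hx
      rcases hx with ⟨rfl | ⟨j, rfl⟩, hx⟩
      · exact absurd hx hadj
      · exact ⟨hx, hv j⟩
  -- vertices of `Q` with a neighbour in `A`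
  set B : Finset V := Finset.univ.filter fun u => u ∉ A ∧ u ∈ Q ∧ ∃ a ∈ A, G.Adj u a with hB
  have cardB : B.card ≤ 5 := by
    refine set_card he (k := 4) (by omega) _ (fun x hx => ?_) ?_
    · rw [hB, Finset.mem_filter] at hx
      exact memQ.1 hx.2.2.1
    · intro x hx y hy
      rw [hB, Finset.mem_filter] at hx hy
      obtain ⟨a, ha, hxa⟩ := hx.2.2.2
      obtain ⟨b, hb, hyb⟩ := hy.2.2.2
      obtain ⟨p, hp⟩ := walkA a ha b hb
      refine ⟨SimpleGraph.Walk.cons hxa (p.append hyb.symm.toWalk), ?_⟩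
      rw [SimpleGraph.Walk.length_cons, SimpleGraph.Walk.length_append]
      have : (hyb.symm.toWalk).length = 1 := by simp
      omega
  -- vertices outside
  have nbO : ∀ o ∈ O, (Finset.univ.filter fun x => G.Adj o x).card ≤ 6 := by
    intro o ho
    have ho' : o ∉ A ∧ o ∉ Q := by
      rw [hO, Finset.mem_compl, Finset.mem_union, not_or] at ho
      exact ho
    have b1 := nbA o ho'.1
    have b2 : (Q.filter fun x => G.Adj o x).card ≤ 3 := by
      refine set_card he (k := 2) (by omega) _ (fun x hx => memQ.1 (Finset.mem_filter.1 hx).1) ?_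
      intro x hx y hy
      refine ⟨SimpleGraph.Walk.cons (Finset.mem_filter.1 hx).2.symm
        (Finset.mem_filter.1 hy).2.toWalk, ?_⟩
      simp
    have b3 : (O.erase o).card ≤ 1 := by
      rw [Finset.card_erase_of_mem ho]
      omega
    have hsub : (Finset.univ.filter fun x => G.Adj o x) ⊆
        (A.filter fun x => G.Adj o x) ∪ ((Q.filter fun x => G.Adj o x) ∪ O.erase o) := by
      intro x hx
      rw [Finset.mem_filter] at hx
      rw [Finset.mem_union, Finset.mem_union, Finset.mem_filter, Finset.mem_filter,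
        Finset.mem_erase, hO, Finset.mem_compl, Finset.mem_union]
      by_cases h1 : x ∈ A
      · exact Or.inl ⟨h1, hx.2⟩
      · by_cases h2 : x ∈ Q
        · exact Or.inr (Or.inl ⟨h2, hx.2⟩)
        · exact Or.inr (Or.inr ⟨hx.2.ne', fun h => h.elim h1 h2⟩)
    have h1 := Finset.card_le_card hsub
    have h2 := Finset.card_union_le (A.filter fun x => G.Adj o x)
      ((Q.filter fun x => G.Adj o x) ∪ O.erase o)
    have h3 := Finset.card_union_le (Q.filter fun x => G.Adj o x) (O.erase o)
    omega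
  -- the cover of the set of edges
  set E1 : Finset (Finset V) := Finset.univ.image (fun i : Fin r => {v, c i}) with hE1
  set E3 : Finset (Finset V) := B.biUnion fun u =>
    (A.filter fun a => G.Adj u a).image fun a => {u, a} with hE3
  set E4 : Finset (Finset V) := O.biUnion fun o =>
    (Finset.univ.filter fun x => G.Adj o x).image fun x => {o, x} with hE4
  have c1 : E1.card ≤ r := by
    refine Finset.card_image_le.trans ?_
    simp
  have c3 : E3.card ≤ 10 := by
    refine (Finset.card_biUnion_le_card_mul _ _ 2 fun u hu => ?_).trans (by omega)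
    refine Finset.card_image_le.trans (nbA u ?_)
    rw [hB, Finset.mem_filter] at hu
    exact hu.2.1
  have c4 : E4.card ≤ 12 := by
    refine (Finset.card_biUnion_le_card_mul _ _ 6 fun o ho => ?_).trans (by omega)
    exact Finset.card_image_le.trans (nbO o ho)
  have c2 := card_cedges c
  have c5 := card_cedges e
  -- one edge
  have inE4 : ∀ x y, x ∈ O → G.Adj x y → ({x, y} : Finset V) ∈ E4 := by
    intro x y hx hxy
    rw [hE4, Finset.mem_biUnion]
    exact ⟨x, hx, Finset.mem_image.2 ⟨y, Finset.mem_filter.2 ⟨Finset.mem_univ _, hxy⟩, rfl⟩⟩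
  have inE3 : ∀ x y, x ∉ A → x ∈ Q → y ∈ A → G.Adj x y → ({x, y} : Finset V) ∈ E3 := by
    intro x y hx hxQ hy hxy
    rw [hE3, Finset.mem_biUnion]
    refine ⟨x, ?_, Finset.mem_image.2 ⟨y, Finset.mem_filter.2 ⟨hy, hxy⟩, rfl⟩⟩
    rw [hB, Finset.mem_filter]
    exact ⟨Finset.mem_univ _, hx, hxQ, y, hy, hxy⟩
  have inE1 : ∀ i, ({v, c i} : Finset V) ∈ E1 := fun i =>
    Finset.mem_image.2 ⟨i, Finset.mem_univ _, rfl⟩
  have cover : ∀ x y, G.Adj x y →
      ({x, y} : Finset V) ∈ E1 ∪ (cedges c ∪ (cedges e ∪ (E3 ∪ E4))) := by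
    intro x y hxy
    simp only [Finset.mem_union]
    by_cases hxO : x ∈ O
    · exact Or.inr (Or.inr (Or.inr (Or.inr (inE4 x y hxO hxy))))
    by_cases hyO : y ∈ O
    · rw [Finset.pair_comm]
      exact Or.inr (Or.inr (Or.inr (Or.inr (inE4 y x hyO hxy.symm))))
    rw [hO, Finset.mem_compl, not_not, Finset.mem_union] at hxO hyO
    by_cases hxA : x ∈ A
    · by_cases hyA : y ∈ A
      · rcases memA.1 hxA with rfl | ⟨i, rfl⟩ <;> rcases memA.1 hyA with rfl | ⟨j, rfl⟩
        · exact absurd rfl hxy.ne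
        · exact Or.inl (inE1 j)
        · rw [Finset.pair_comm]
          exact Or.inl (inE1 i)
        · exact Or.inr (Or.inl (mem_cedges (by omega) c hxy))
      · rw [Finset.pair_comm]
        exact Or.inr (Or.inr (Or.inr (Or.inl (inE3 y x hyA (hyO.resolve_left hyA) hxA hxy.symm))))
    · by_cases hyA : y ∈ A
      · exact Or.inr (Or.inr (Or.inr (Or.inl (inE3 x y hxA (hxO.resolve_left hxA) hyA hxy))))
      · obtain ⟨i, rfl⟩ := memQ.1 (hxO.resolve_left hxA)
        obtain ⟨j, rfl⟩ := memQ.1 (hyO.resolve_left hyA)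
        exact Or.inr (Or.inr (Or.inl (mem_cedges (by omega) e hxy)))
  have hle : cl G Finset.univ 2 ≤ (E1 ∪ (cedges c ∪ (cedges e ∪ (E3 ∪ E4)))).card := by
    rw [cl_eq]
    refine Finset.card_le_card fun S hS => ?_
    rw [Finset.mem_filter, Finset.mem_powersetCard] at hS
    obtain ⟨x, y, hxy, rfl⟩ := Finset.card_eq_two.1 hS.1.2
    refine cover x y (hS.2 ?_ ?_ hxy) <;> simp
  have u1 := Finset.card_union_le E1 (cedges c ∪ (cedges e ∪ (E3 ∪ E4)))
  have u2 := Finset.card_union_le (cedges c) (cedges e ∪ (E3 ∪ E4))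
  have u3 := Finset.card_union_le (cedges e) (E3 ∪ E4)
  have u4 := Finset.card_union_le E3 E4
  omega

theorem t_cntw : S_WIN → S_NB1 → S_NB2 → S_CNTW := fun _ _ _ => cntw

end Pool.Agent.P8H1.RC
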