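import Pool.Agent.P8H1.RC.Nb1
set_option autoImplicit false

/-!
Induced cycles from functions on the natural numbers, packages HOLE and NB2 of the project RC.
-/

namespace Pool.Agent.P8H1.RC

open Pool.Agent.P8H79.RC

theorem cyc_adj {r : ℕ} (hr : 2 ≤ r) (a b : Fin r) : (SimpleGraph.cycleGraph r).Adj a b ↔
    (a.val + 1 = b.val ∨ b.val + 1 = a.val ∨ (a.val = 0 ∧ b.val + 1 = r) ∨
      (b.val = 0 ∧ a.val + 1 = r)) := by
  obtain ⟨k, rfl⟩ : ∃ k, r = k + 2 := ⟨r - 2, by omega⟩
  rw [Pool.Agent.H255R3.STC.cycle_adj]
  omega

theorem exists_emb {V : Type} {G : SimpleGraph V} {r : ℕ} (hr : 3 ≤ r) (f : ℕ → V)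
    (hinj : ∀ i j, i < j → j < r → f i ≠ f j)
    (hadj : ∀ i j, i < j → j < r → (G.Adj (f i) (f j) ↔ (i + 1 = j ∨ (i = 0 ∧ j + 1 = r)))) :
    Nonempty (SimpleGraph.cycleGraph r ↪g G) := by
  refine ⟨⟨⟨fun i => f i.val, ?_⟩, ?_⟩⟩
  · intro i j h
    rcases Nat.lt_trichotomy i.val j.val with h1 | h1 | h1
    · exact absurd h (hinj _ _ h1 j.2)
    · exact Fin.ext h1
    · exact absurd h.symm (hinj _ _ h1 i.2)
  · intro i j
    show G.Adj (f i.val) (f j.val) ↔ _
    rw [cyc_adj (by omega)]
    have hi := i.2
    have hj := j.2
    rcases Nat.lt_trichotomy i.val j.val with h1 | h1 | h1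
    · rw [hadj _ _ h1 j.2]
      omega
    · rw [h1]
      constructor
      · intro h
        exact absurd h (SimpleGraph.irrefl G)
      · omega
    · rw [G.adj_comm, hadj _ _ h1 i.2]
      omega

theorem hole : S_HOLE := by
  intro V _ G hG
  obtain ⟨a, w, hw, hg⟩ := SimpleGraph.exists_girth_eq_length.2 hG
  have h3 : 3 ≤ w.length := hw.three_le_length
  refine ⟨w.length, h3, exists_emb h3 w.getVert ?_ ?_⟩
  · intro i j hij hj h
    have := hw.getVert_injOn' (show i ≤ w.length - 1 by omega) (show j ≤ w.length - 1 by omega) h
    omega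
  · intro i j hij hj
    constructor
    · intro h
      by_contra hcon
      have hp1 : (w.take j).IsPath := hw.isPath_take hj
      have hp : ((w.take j).drop i).IsPath := hp1.drop i
      have e : (w.take j).getVert i = w.getVert i := by
        rw [SimpleGraph.Walk.take_getVert, min_eq_right hij.le]
      have hlen : ((w.take j).drop i).length = j - i := by
        rw [SimpleGraph.Walk.drop_length, SimpleGraph.Walk.take_length, min_eq_left hj.le]
      have h' : G.Adj (w.getVert j) ((w.take j).getVert i) := by
        rw [e]
        exact h.symm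
      have hc : (SimpleGraph.Walk.cons h' ((w.take j).drop i)).IsCycle := by
        rw [SimpleGraph.Walk.cons_isCycle_iff]
        refine ⟨hp, fun hm => ?_⟩
        rw [Sym2.eq_swap] at hm
        have := hp.length_eq_one_of_mem_edges hm
        omega
      have := SimpleGraph.girth_le_length hc
      rw [SimpleGraph.Walk.length_cons, hlen, hg] at this
      omega
    · rintro (rfl | ⟨rfl, hj'⟩)
      · exact w.adj_getVert_succ (by omega)
      · have := w.adj_getVert_succ hj
        rw [hj', w.getVert_length] at this
        rw [w.getVert_zero]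
        exact this.symm

/-- The vertices of a cycle, periodically. -/
def per {V : Type} {G : SimpleGraph V} {r : ℕ} (hr : 0 < r) (c : SimpleGraph.cycleGraph r ↪g G)
    (n : ℕ) : V :=
  c ⟨n % r, Nat.mod_lt n hr⟩

theorem per_add {V : Type} {G : SimpleGraph V} {r : ℕ} (hr : 0 < r)
    (c : SimpleGraph.cycleGraph r ↪g G) (n : ℕ) : per hr c (n + r) = per hr c n := by
  unfold per
  congr 1
  exact Fin.ext (Nat.add_mod_right n r)

theorem mod_cases {r : ℕ} (hr : 0 < r) (n m : ℕ) (hnm : n < m) (h : m < n + r) :
    m % r = n % r + (m - n) ∨ m % r + r = n % r + (m - n) := by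
  have h1 := Nat.mod_add_div n r
  have h2 := Nat.mod_add_div m r
  have h3 := Nat.mod_lt n hr
  have h4 := Nat.mod_lt m hr
  have h5 : n / r ≤ m / r := Nat.div_le_div_right hnm.le
  have h6 : m / r ≤ n / r + 1 := by
    rw [← Nat.add_div_right n hr]
    exact Nat.div_le_div_right (by omega)
  rcases (by omega : m / r = n / r ∨ m / r = n / r + 1) with h7 | h7
  · rw [h7] at h2
    left
    omega
  · rw [h7, Nat.mul_add, Nat.mul_one] at h2
    right
    omega

theorem per_adj {V : Type} {G : SimpleGraph V} {r : ℕ} (hr : 0 < r) (hr3 : 3 ≤ r)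
    (c : SimpleGraph.cycleGraph r ↪g G) (n m : ℕ) (hnm : n < m) (h : m < n + r) :
    G.Adj (per hr c n) (per hr c m) ↔ (m = n + 1 ∨ m + 1 = n + r) := by
  unfold per
  rw [c.map_adj_iff, cyc_adj (by omega)]
  simp only
  have h3 := Nat.mod_lt n hr
  have h4 := Nat.mod_lt m hr
  rcases mod_cases hr n m hnm h with h5 | h5
  · omega
  · omega

theorem per_ne {V : Type} {G : SimpleGraph V} {r : ℕ} (hr : 0 < r)
    (c : SimpleGraph.cycleGraph r ↪g G) (n m : ℕ) (hnm : n < m) (h : m < n + r) :
    per hr c n ≠ per hr c m := by
  unfold per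
  intro h1
  have h2 := congrArg Fin.val (c.injective h1)
  simp only at h2
  rcases mod_cases hr n m hnm h with h5 | h5 <;> omega

theorem nb2 : S_NB2 := by
  intro V _ G N r h4 hN hr hrN c v o hv ho hne
  have r0 : 0 < r := by omega
  set C := per r0 c with hC
  have hvC : ∀ n, G.Adj v (C n) := fun n => hv _
  have hoC : ∀ n, C n ≠ o := fun n => hne _
  -- minimal distance of two neighbours
  have key : ∀ a, ¬ (1 ≤ a ∧ a < r ∧ ∃ n, G.Adj o (C n) ∧ G.Adj o (C (n + a))) := by
    by_contra hcon
    push Not at hcon
    classical
    have hex : ∃ a, 1 ≤ a ∧ a < r ∧ ∃ n, G.Adj o (C n) ∧ G.Adj o (C (n + a)) := hcon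
    obtain ⟨ha1, har, n, hn1, hn2⟩ := Nat.find_spec hex
    have hmin := fun m (hm : m < Nat.find hex) => Nat.find_min hex hm
    set a := Nat.find hex with ha
    have h2a : 2 * a ≤ r := by
      by_contra h
      refine hmin (r - a) (by omega) ⟨by omega, by omega, n + a, hn2, ?_⟩
      rw [show n + a + (r - a) = n + r by omega, hC, per_add]
      exact hn1
    rcases (by omega : a = 1 ∨ 2 ≤ a) with h1 | h2
    · rw [h1] at hn2
      have hcc : G.Adj (C n) (C (n + 1)) :=
        (per_adj r0 (by omega) c n (n + 1) (by omega) (by omega)).2 (Or.inl rfl)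
      refine h4 {v, o, C n, C (n + 1)} ?_
      rw [SimpleGraph.isNClique_iff]
      constructor
      · have b1 := hvC n
        have b2 := hvC (n + 1)
        intro p hp q hq hpq
        simp only [Finset.coe_insert, Finset.coe_singleton, Set.mem_insert_iff,
          Set.mem_singleton_iff] at hp hq
        rcases hp with hp | hp | hp | hp <;> rcases hq with hq | hq | hq | hq <;> rw [hp, hq] <;>
          (try rw [hp, hq] at hpq) <;>
          first
          | exact absurd rfl hpq
          | assumption
          | exact SimpleGraph.Adj.symm (by assumption)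
      · rw [Finset.card_insert_of_notMem, Finset.card_insert_of_notMem,
          Finset.card_insert_of_notMem, Finset.card_singleton]
        · simpa using hcc.ne
        · simpa using ⟨hn1.ne, hn2.ne⟩
        · simpa using ⟨ho.ne, (hvC n).ne, (hvC (n + 1)).ne⟩
    · refine (hN (a + 2) (by omega) (by omega)).false
        (Classical.choice (exists_emb (r := a + 2) (by omega)
          (fun i => if i = 0 then o else C (n + (i - 1))) ?_ ?_))
      · intro i j hij hj
        have hj0 : j ≠ 0 := by omega
        simp only [hj0, if_false]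
        split_ifs with hi
        · exact (hoC _).symm
        · exact per_ne r0 c _ _ (by omega) (by omega)
      · intro i j hij hj
        have hj0 : j ≠ 0 := by omega
        simp only [hj0, if_false]
        split_ifs with hi
        · subst hi
          constructor
          · intro h
            by_contra hcon2
            exact hmin (j - 1) (by omega) ⟨by omega, by omega, n, hn1, h⟩
          · rintro (h | ⟨-, h⟩)
            · rw [← h]
              exact hn1
            · rw [show j - 1 = a by omega]
              exact hn2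
        · rw [hC, per_adj r0 (by omega) c _ _ (by omega) (by omega)]
          omega
  have main : ∀ i j : Fin r, G.Adj o (c i) → G.Adj o (c j) → ¬ i.val < j.val := by
    intro i j h1 h2 hij
    have hi := i.2
    have hj := j.2
    refine key (j.val - i.val) ⟨by omega, by omega, i.val, ?_, ?_⟩
    · have : C i.val = c i := by
        rw [hC]
        unfold per
        congr 1
        exact Fin.ext (Nat.mod_eq_of_lt i.2)
      rw [this]
      exact h1
    · have : C (i.val + (j.val - i.val)) = c j := by
        rw [hC]
        unfold per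
        congr 1
        refine Fin.ext ?_
        simp only
        rw [show i.val + (j.val - i.val) = j.val by omega, Nat.mod_eq_of_lt j.2]
      rw [this]
      exact h2
  intro i j h1 h2
  have a1 := main i j h1 h2
  have a2 := main j i h2 h1
  exact Fin.ext (by omega)

end Pool.Agent.P8H1.RC
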