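import Pool.Agent.P8H1.RC.Cleq
set_option autoImplicit false

/-!
Packages LINK and AVOID of the project RC.
-/

namespace Pool.Agent.P8H1.RC

open Pool.Agent.P8H79.RC

open Classical in
/-- The cliques with `k` vertices. -/
noncomputable def cls {W : Type} [Fintype W] (H : SimpleGraph W) (k : ℕ) : Finset (Finset W) :=
  (Finset.univ.powersetCard k).filter (fun S : Finset W => H.IsClique (S : Set W))

theorem mem_cls {W : Type} [Fintype W] {H : SimpleGraph W} {k : ℕ} {S : Finset W} :
    S ∈ cls H k ↔ S.card = k ∧ H.IsClique (S : Set W) := by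
  classical
  unfold cls
  rw [Finset.mem_filter, Finset.mem_powersetCard]
  simp

theorem cl_cls {W : Type} [Fintype W] (H : SimpleGraph W) (k : ℕ) :
    cl H Finset.univ k = (cls H k).card := cl_eq H Finset.univ k

open Classical in
theorem edge_card {W : Type} [Fintype W] (H : SimpleGraph W) :
    cl H Finset.univ 2 = H.edgeFinset.card := by
  rw [cl_eq]
  symm
  refine Finset.card_nbij Sym2.toFinset ?_ ?_ ?_
  · intro e he
    induction e with
    | h a b =>
      rw [Finset.mem_coe, SimpleGraph.mem_edgeFinset, SimpleGraph.mem_edgeSet] at he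
      have h1 : (s(a, b) : Sym2 W).toFinset = {a, b} := by
        ext x
        simp
      rw [h1, Finset.mem_coe, Finset.mem_filter, Finset.mem_powersetCard]
      refine ⟨⟨Finset.subset_univ _, Finset.card_pair he.ne⟩, ?_⟩
      intro p hp q hq hpq
      simp only [Finset.coe_insert, Finset.coe_singleton, Set.mem_insert_iff,
        Set.mem_singleton_iff] at hp hq
      rcases hp with rfl | rfl <;> rcases hq with rfl | rfl
      · exact absurd rfl hpq
      · exact he
      · exact he.symm
      · exact absurd rfl hpq
  · intro p _ q _ h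
    refine Sym2.ext fun x => ?_
    rw [← Sym2.mem_toFinset, ← Sym2.mem_toFinset]
    exact Iff.of_eq (congrArg (x ∈ ·) h)
  · intro S hS
    rw [Finset.mem_coe, Finset.mem_filter, Finset.mem_powersetCard] at hS
    obtain ⟨a, b, hab, rfl⟩ := Finset.card_eq_two.1 hS.1.2
    refine ⟨s(a, b), ?_, ?_⟩
    · rw [Finset.mem_coe, SimpleGraph.mem_edgeFinset, SimpleGraph.mem_edgeSet]
      exact hS.2 (by simp) (by simp) hab
    · ext x
      simp

open Classical in
theorem forest {W : Type} [Fintype W] [Nonempty W] {H : SimpleGraph W} (hH : H.IsAcyclic) :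
    cl H Finset.univ 2 + 1 ≤ Fintype.card W ∧
      (cl H Finset.univ 2 + 1 = Fintype.card W → H.IsTree) := by
  obtain ⟨T, hT1, -, hT⟩ := (SimpleGraph.connected_top (V := W)).exists_isTree_le_of_le_of_isAcyclic
    le_top hH
  have h1 := hT.card_edgeFinset
  rw [edge_card]
  have h2 : H.edgeFinset ⊆ T.edgeFinset := SimpleGraph.edgeFinset_subset_edgeFinset.2 hT1
  have h3 := Finset.card_le_card h2
  refine ⟨by omega, fun h => ?_⟩
  have h4 := Finset.eq_of_subset_of_card_le h2 (by omega)
  rw [SimpleGraph.edgeFinset_inj] at h4
  rw [h4]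
  exact hT

open Classical in
/-- The number of triangles through `v`. -/
noncomputable def tri {V : Type} [Fintype V] (G : SimpleGraph V) (v : V) : ℕ :=
  ((Finset.univ.powersetCard 3).filter
    (fun S : Finset V => G.IsClique (S : Set V) ∧ v ∈ S)).card

open Classical in
theorem link_card {V : Type} [Fintype V] (G : SimpleGraph V) (v : V) :
    cl (link G v) Finset.univ 2 = tri G v := by
  rw [cl_cls]
  unfold tri
  have hv : ∀ S : Finset (G.neighborSet v), v ∉ S.map (Function.Embedding.subtype _) := by
    intro S h
    rw [Finset.mem_map] at h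
    obtain ⟨x, -, hx⟩ := h
    have := x.2
    rw [SimpleGraph.mem_neighborSet] at this
    exact this.ne hx.symm
  refine Finset.card_nbij (fun S => insert v (S.map (Function.Embedding.subtype _))) ?_ ?_ ?_
  · intro S hS
    rw [Finset.mem_coe, mem_cls] at hS
    refine Finset.mem_coe.2 (Finset.mem_filter.2 ?_)
    rw [Finset.mem_powersetCard, Finset.card_insert_of_notMem (hv S),
      Finset.card_map, hS.1]
    refine ⟨⟨Finset.subset_univ _, rfl⟩, ?_, Finset.mem_insert_self _ _⟩
    intro p hp q hq hpq
    rw [Finset.mem_coe, Finset.mem_insert, Finset.mem_map] at hp hq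
    rcases hp with rfl | ⟨p, hp, rfl⟩ <;> rcases hq with rfl | ⟨q, hq, rfl⟩
    · exact absurd rfl hpq
    · exact q.2
    · exact SimpleGraph.Adj.symm p.2
    · exact hS.2 hp hq (fun h => hpq (congrArg _ h))
  · intro S _ T _ h
    have h1 := congrArg (fun X => X.erase v) h
    simp only at h1
    rw [Finset.erase_insert (hv S), Finset.erase_insert (hv T)] at h1
    exact Finset.map_injective _ h1
  · intro S hS
    rw [Finset.mem_coe, Finset.mem_filter, Finset.mem_powersetCard] at hS
    obtain ⟨⟨-, h3⟩, hc, hvS⟩ := hS
    have hnb : ∀ x ∈ S.erase v, x ∈ G.neighborSet v := by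
      intro x hx
      rw [Finset.mem_erase] at hx
      exact hc hvS hx.2 hx.1.symm
    have hmap : ((S.erase v).subtype (fun x => x ∈ G.neighborSet v)).map
        (Function.Embedding.subtype _) = S.erase v := by
      rw [Finset.subtype_map, Finset.filter_true_of_mem hnb]
    refine ⟨(S.erase v).subtype (fun x => x ∈ G.neighborSet v), ?_, ?_⟩
    · rw [Finset.mem_coe, mem_cls]
      refine ⟨?_, ?_⟩
      · have := congrArg Finset.card hmap
        rw [Finset.card_map, Finset.card_erase_of_mem hvS, h3] at this
        exact this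
      · intro p hp q hq hpq
        rw [Finset.mem_coe, Finset.mem_subtype, Finset.mem_erase] at hp hq
        exact hc hp.2 hq.2 (fun h => hpq (Subtype.ext h))
    · show insert v (Finset.map _ _) = S
      rw [hmap, Finset.insert_erase hvS]

theorem sum_tri {V : Type} [Fintype V] (G : SimpleGraph V) :
    ∑ v, tri G v = 3 * cl G Finset.univ 3 := by
  classical
  rw [cl_eq]
  have h1 : ∀ v, tri G v = ∑ S ∈ (Finset.univ.powersetCard 3).filter
      (fun S : Finset V => G.IsClique (S : Set V)), if v ∈ S then 1 else 0 := by
    intro v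
    unfold tri
    rw [← Finset.card_filter, Finset.filter_filter]
  rw [Finset.sum_congr rfl fun v _ => h1 v, Finset.sum_comm, mul_comm, Finset.card_eq_sum_ones,
    Finset.sum_mul]
  refine Finset.sum_congr (by congr) fun S hS => ?_
  rw [Finset.mem_filter, Finset.mem_powersetCard] at hS
  rw [← Finset.card_filter, Finset.filter_univ_mem, hS.1.2, one_mul]

theorem t_link : S_LINK := by
  classical
  intro V _ G hac hne h2 h3 v
  have hne' : ∀ v, Nonempty (G.neighborSet v) := fun v => (hne v).to_subtype
  have hle : ∀ u ∈ (Finset.univ : Finset V), cl (link G u) Finset.univ 2 + 1 ≤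
      Fintype.card (G.neighborSet u) := fun u _ => by
    have := hne' u
    exact (forest (hac u)).1
  have hsum : ∑ u : V, (cl (link G u) Finset.univ 2 + 1) =
      ∑ u : V, Fintype.card (G.neighborSet u) := by
    rw [Finset.sum_add_distrib, Finset.sum_congr rfl fun u _ => link_card G u, sum_tri, h3,
      Finset.sum_const, Finset.card_univ, smul_eq_mul, mul_one]
    have h5 := G.sum_degrees_eq_twice_card_edges
    rw [← edge_card, h2] at h5
    have h6 : ∑ u : V, Fintype.card (G.neighborSet u) = ∑ u : V, G.degree u :=
      Finset.sum_congr rfl fun u _ => by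
        rw [SimpleGraph.card_neighborSet_eq_degree]
    rw [h6, h5]
    ring
  have h4 := (Finset.sum_eq_sum_iff_of_le hle).1 hsum v (Finset.mem_univ _)
  have := hne' v
  exact (forest (hac v)).2 h4

theorem t_avoid : S_AVOID := by
  classical
  intro V _ G ht h3 v
  by_contra hcon
  push Not at hcon
  have h1 : cl G Finset.univ 3 = tri G v := by
    rw [cl_eq]
    unfold tri
    congr 1
    ext S
    rw [Finset.mem_filter, Finset.mem_filter, Finset.mem_powersetCard]
    constructor
    · rintro ⟨hS, hc⟩
      refine ⟨hS, hc, ?_⟩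
      obtain ⟨a, b, c, hab, hac, hbc, rfl⟩ := Finset.card_eq_three.1 hS.2
      have e1 : G.Adj a b := hc (by simp) (by simp) hab
      have e2 : G.Adj b c := hc (by simp) (by simp) hbc
      have e3 : G.Adj a c := hc (by simp) (by simp) hac
      have := hcon a b c e1 e2 e3
      by_contra h
      simp only [Finset.mem_insert, Finset.mem_singleton, not_or] at h
      exact h.2.2 (this h.1 h.2.1)
    · rintro ⟨hS, hc, -⟩
      exact ⟨hS, hc⟩
  have h5 := (ht v).card_edgeFinset
  have h6 := edge_card (link G v)
  rw [link_card] at h6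
  have h7 : Fintype.card (G.neighborSet v) ≤ Fintype.card V :=
    Fintype.card_subtype_le _
  have h8 : (Pool.Agent.P8H79.RC.link G v).edgeFinset.card + 1 = Fintype.card (G.neighborSet v) := by
    convert h5
  omega

end Pool.Agent.P8H1.RC
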