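import Pool.Agent.P8H79.RC.Stm
set_option autoImplicit false

/-!
Package NB1 of the project RC: common neighbours of vertices which are not adjacent.
-/

namespace Pool.Agent.P8H1.RC

open Pool.Agent.P8H79.RC

theorem c4_adj (i j : Fin 4) : (SimpleGraph.cycleGraph 4).Adj i j ↔ (i ≠ j ∧ i ≠ j + 2) := by
  revert i j
  decide

theorem exists_c4 {V : Type} {G : SimpleGraph V} {a b c d : V} (hab : G.Adj a b) (hbc : G.Adj b c)
    (hcd : G.Adj c d) (hda : G.Adj d a) (hac : ¬ G.Adj a c) (hbd : ¬ G.Adj b d) (ac : a ≠ c)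
    (bd : b ≠ d) : Nonempty (SimpleGraph.cycleGraph 4 ↪g G) := by
  have hinj : Function.Injective (![a, b, c, d] : Fin 4 → V) := by
    intro i j h
    fin_cases i <;> fin_cases j <;> simp at h <;> first | rfl | (exfalso; first
      | exact hab.ne h | exact hab.ne h.symm | exact hbc.ne h | exact hbc.ne h.symm
      | exact hcd.ne h | exact hcd.ne h.symm | exact hda.ne h | exact hda.ne h.symm
      | exact ac h | exact ac h.symm | exact bd h | exact bd h.symm)
  refine ⟨⟨⟨![a, b, c, d], hinj⟩, ?_⟩⟩
  intro i j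
  rw [c4_adj]
  have hac' : ¬ G.Adj c a := fun h => hac h.symm
  have hbd' : ¬ G.Adj d b := fun h => hbd h.symm
  fin_cases i <;> fin_cases j <;>
    simp [hab, hbc, hcd, hda, hac, hbd, hab.symm, hbc.symm, hcd.symm, hda.symm, hac', hbd']

theorem nb1 : S_NB1 := by
  intro V _ G h4 hc u v huv hn
  by_contra hcon
  push Not at hcon
  unfold cc at hcon
  obtain ⟨x, y, z, hx, hy, hz, hxy, hxz, hyz⟩ := (Set.two_lt_ncard_iff (Set.toFinite _)).1 hcon
  have key : ∀ x y : V, (G.Adj u x ∧ G.Adj v x) → (G.Adj u y ∧ G.Adj v y) → x ≠ y →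
      G.Adj x y := by
    intro x y hx hy hxy
    by_contra h
    obtain ⟨e⟩ := exists_c4 hx.1 hx.2.symm hy.2 hy.1.symm hn h huv hxy
    exact hc.false e
  have a1 := key x y hx hy hxy
  have a2 := key x z hx hz hxz
  have a3 := key y z hy hz hyz
  classical
  refine h4 {u, x, y, z} ?_
  rw [SimpleGraph.isNClique_iff]
  constructor
  · intro p hp q hq hpq
    simp only [Finset.coe_insert, Finset.coe_singleton, Set.mem_insert_iff,
      Set.mem_singleton_iff] at hp hq
    have hx1 := hx.1
    have hy1 := hy.1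
    have hz1 := hz.1
    rcases hp with hp | hp | hp | hp <;> rcases hq with hq | hq | hq | hq <;> rw [hp, hq] <;>
      (try rw [hp, hq] at hpq) <;>
      first
      | exact absurd rfl hpq
      | assumption
      | exact SimpleGraph.Adj.symm (by assumption)
  · rw [Finset.card_insert_of_notMem, Finset.card_insert_of_notMem,
      Finset.card_insert_of_notMem, Finset.card_singleton]
    · simpa using hyz
    · simpa using ⟨hxy, hxz⟩
    · simpa using ⟨hx.1.ne, hy.1.ne, hz.1.ne⟩

end Pool.Agent.P8H1.RC
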